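import Pool.Agent.Helper5.FV.Stmts

/-!
Row SHF of project FV: shifted ratios.
-/

set_option autoImplicit false

open Finset Pool.Agent.Helper8.UN

namespace Pool.Agent.Helper5.FV

theorem SHF_core (p : ℕ → ℝ) (n k : ℕ) (X : ℝ) (hk1 : 67 / 100 * X ≤ k)
    (hk2 : (k : ℝ) ≤ 122 / 100 * X)
    (hp : ∀ i : ℕ, 665 / 1000 * X ≤ i → (i : ℝ) ≤ 122 / 100 * X →
      0 < p (i - 1) ∧ 0 < p i ∧ 0 < p (i + 1) ∧ p (i - 1) * p (i + 1) ≤ p i ^ 2 ∧
      p i ^ 2 ≤ Real.exp (1004 / 1000 * (n / (i : ℝ) ^ 2)) * (p (i - 1) * p (i + 1))) :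
    ∀ j : ℕ, (j : ℝ) ≤ 1 / 1000 * X →
      p k * p (k - j - 1) ≤ p (k - j) * p (k - 1) ∧
      p (k - j) * p (k - 1) ≤ Real.exp (2 * (j : ℝ) * n / (k : ℝ) ^ 2) *
        (p k * p (k - j - 1)) := by
  intro j
  induction j with
  | zero =>
    intro _
    simp
  | succ j ih =>
    intro hj
    push_cast at hj
    have hj0 : (j : ℝ) ≤ 1 / 1000 * X := by linarith
    have hj1 : (0 : ℝ) ≤ j := Nat.cast_nonneg j
    obtain ⟨A1, A2⟩ := ih hj0
    have hkj : j + 1 ≤ k := by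
      have : ((j + 1 : ℕ) : ℝ) ≤ k := by push_cast; linarith
      exact_mod_cast this
    obtain ⟨i, hi⟩ : ∃ i, k - j - 1 = i := ⟨_, rfl⟩
    have hi1 : k - j = i + 1 := by omega
    have hi2 : k - (j + 1) = i := by omega
    have hic : (i : ℝ) = k - j - 1 := by
      have : ((i + (j + 1) : ℕ) : ℝ) = k := by
        congr 1
        omega
      push_cast at this
      linarith
    rw [hi, hi1] at A1 A2
    rw [hi2]
    have hilow : 665 / 1000 * X ≤ i := by rw [hic]; linarith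
    have hiup : (i : ℝ) ≤ 122 / 100 * X := by rw [hic]; linarith
    obtain ⟨P0, P1, P2, B1, B2⟩ := hp i hilow hiup
    obtain ⟨K0, K1, -, -, -⟩ := hp k (by linarith) hk2
    have hik : (i : ℝ) ≥ 99 / 100 * k := by rw [hic]; linarith
    have hk0 : (0 : ℝ) < k := by linarith
    have hi0 : (0 : ℝ) < i := by linarith
    have hn0 : (0 : ℝ) ≤ n := Nat.cast_nonneg n
    have hexp : Real.exp (1004 / 1000 * (n / (i : ℝ) ^ 2)) ≤ Real.exp (2 * n / (k : ℝ) ^ 2) := by
      rw [Real.exp_le_exp]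
      have h1 : (99 / 100 * (k : ℝ)) ^ 2 ≤ (i : ℝ) ^ 2 := by
        have := hik
        gcongr
      have h2 : (n : ℝ) / (i : ℝ) ^ 2 ≤ n / (99 / 100 * (k : ℝ)) ^ 2 := by
        gcongr
      have h3 : (n : ℝ) / (99 / 100 * (k : ℝ)) ^ 2 = 10000 / 9801 * (n / (k : ℝ) ^ 2) := by
        rw [mul_pow]
        field_simp
        ring
      have h4 : (0 : ℝ) ≤ n / (k : ℝ) ^ 2 := by positivity
      have h5 : 2 * (n : ℝ) / (k : ℝ) ^ 2 = 2 * (n / (k : ℝ) ^ 2) := by ring
      rw [h5]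
      rw [h3] at h2
      linarith
    refine ⟨?_, ?_⟩
    · -- p k * p (i - 1) ≤ p i * p (k - 1)
      have h1 : p i * (p k * p (i - 1)) ≤ p i * (p i * p (k - 1)) := by
        calc p i * (p k * p (i - 1)) = (p k * p i) * p (i - 1) := by ring
          _ ≤ (p (i + 1) * p (k - 1)) * p (i - 1) := mul_le_mul_of_nonneg_right A1 P0.le
          _ = (p (i - 1) * p (i + 1)) * p (k - 1) := by ring
          _ ≤ p i ^ 2 * p (k - 1) := mul_le_mul_of_nonneg_right B1 K0.le
          _ = p i * (p i * p (k - 1)) := by ring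
      exact le_of_mul_le_mul_left h1 P1
    · have h1 : p i * (p i * p (k - 1)) ≤
          p i * (Real.exp (2 * ((j + 1 : ℕ) : ℝ) * n / (k : ℝ) ^ 2) * (p k * p (i - 1))) := by
        calc p i * (p i * p (k - 1)) = p i ^ 2 * p (k - 1) := by ring
          _ ≤ (Real.exp (1004 / 1000 * (n / (i : ℝ) ^ 2)) * (p (i - 1) * p (i + 1))) *
                p (k - 1) := mul_le_mul_of_nonneg_right B2 K0.le
          _ ≤ (Real.exp (2 * n / (k : ℝ) ^ 2) * (p (i - 1) * p (i + 1))) * p (k - 1) :=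
                mul_le_mul_of_nonneg_right
                  (mul_le_mul_of_nonneg_right hexp (mul_pos P0 P2).le) K0.le
          _ = (Real.exp (2 * n / (k : ℝ) ^ 2) * p (i - 1)) * (p (i + 1) * p (k - 1)) := by ring
          _ ≤ (Real.exp (2 * n / (k : ℝ) ^ 2) * p (i - 1)) *
                (Real.exp (2 * (j : ℝ) * n / (k : ℝ) ^ 2) * (p k * p i)) :=
                mul_le_mul_of_nonneg_left A2 (mul_pos (Real.exp_pos _) P0).le
          _ = p i * ((Real.exp (2 * n / (k : ℝ) ^ 2) * Real.exp (2 * (j : ℝ) * n / (k : ℝ) ^ 2)) *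
                (p k * p (i - 1))) := by ring
          _ = p i * (Real.exp (2 * ((j + 1 : ℕ) : ℝ) * n / (k : ℝ) ^ 2) *
                (p k * p (i - 1))) := by
                rw [← Real.exp_add]
                congr 3
                push_cast
                ring
      exact le_of_mul_le_mul_left h1 P1

theorem st_SHF (h1 : ST_STW) : ST_SHF := by
  obtain ⟨n₀, h⟩ := h1
  refine ⟨n₀, fun n hn D0 r k j E W hR hW hk1 hk2 hj => ?_⟩
  refine SHF_core (fun i => (PP E W i : ℝ)) n k ((n : ℝ) / Real.log n) hk1 hk2 ?_ j hj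
  intro i hi1 hi2
  obtain ⟨a1, a2, a3, a4, a5⟩ := h n hn D0 r i E W hR hW hi1 hi2
  refine ⟨by exact_mod_cast a1, by exact_mod_cast a2, by exact_mod_cast a3, ?_, a5⟩
  refine le_trans ?_ a4
  have h0 : (0 : ℝ) ≤ (PP E W (i - 1) : ℝ) * PP E W (i + 1) := by positivity
  have h2 : (0 : ℝ) ≤ 999 / 1000 * ((W.card : ℝ) / ((i : ℝ) * (i + 1))) := by positivity
  nlinarith [mul_nonneg h2 h0]

end Pool.Agent.Helper5.FV
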