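import Pool.Agent.Helper43.FV.Spec

/-!
# Translations of an elliptic function field
-/

namespace Pool.Agent.Helper43.FV

open WeierstrassCurve Polynomial

variable {F : Type} [Field F] [Algebra ℂ F]


theorem ELLT_tr (u : F) (hu : ∀ c : ℂ, u ≠ algebraMap ℂ F c) : Transcendental ℂ u := by
  intro hal
  have hint : IsIntegral ℂ u := hal.isIntegral
  have h1 := IsAlgClosed.degree_eq_one_of_irreducible ℂ (minpoly.irreducible hint)
  obtain ⟨c, hc⟩ := minpoly.mem_range_of_degree_eq_one ℂ u h1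
  exact hu c hc.symm

theorem ELLT_hom (A B : ℂ) (u v : F)
    (h : v ^ 2 = u ^ 3 + algebraMap ℂ F A * u + algebraMap ℂ F B)
    (hu : ∀ c : ℂ, u ≠ algebraMap ℂ F c) :
    ∃ φ : (WC A B).CoordinateRing →ₐ[ℂ] F, Function.Injective φ ∧
      φ (AdjoinRoot.mk _ (C X)) = u ∧ φ (AdjoinRoot.mk _ X) = v := by
  have h0 : (WC A B).polynomial.eval₂ ((aeval u : ℂ[X] →ₐ[ℂ] F) : ℂ[X] →+* F) v = 0 := by
    simp [WC, WeierstrassCurve.Affine.polynomial, eval₂_pow]
    linear_combination h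
  have htr : Transcendental ℂ u := ELLT_tr u hu
  set φ := AdjoinRoot.liftAlgHom (WC A B).polynomial (aeval u) v h0 with hφ
  refine ⟨φ, ?_, ?_, ?_⟩
  · have : Module.Finite ℂ[X] (WC A B).CoordinateRing :=
      Module.Finite.of_basis (WeierstrassCurve.Affine.CoordinateRing.basis (WC A B))
    have : Algebra.IsIntegral ℂ[X] (WC A B).CoordinateRing := Algebra.IsIntegral.of_finite _ _
    have h1 : (RingHom.ker (φ : (WC A B).CoordinateRing →+* F)) = ⊥ := by
      apply Ideal.eq_bot_of_comap_eq_bot (R := ℂ[X])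
      rw [eq_bot_iff]
      intro p hp
      rw [Ideal.mem_comap, RingHom.mem_ker] at hp
      have h2 : aeval u p = 0 := by
        have h3 : (φ : (WC A B).CoordinateRing →+* F) (algebraMap ℂ[X] (WC A B).CoordinateRing p) =
          aeval u p := by
          change φ (AdjoinRoot.of _ p) = _
          rw [hφ, AdjoinRoot.liftAlgHom_of]
        rw [← h3]
        exact hp
      rw [Ideal.mem_bot]
      exact (transcendental_iff.1 htr) p h2
    exact (RingHom.injective_iff_ker_eq_bot _).2 h1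
  · rw [hφ, AdjoinRoot.liftAlgHom_mk]
    simp
  · rw [hφ, AdjoinRoot.liftAlgHom_mk]
    simp
theorem ELLT_ext (A B : ℂ) (x y u v : F) (hg : FGen ({x, y} : Set F))
    (h : y ^ 2 = x ^ 3 + algebraMap ℂ F A * x + algebraMap ℂ F B)
    (hx : ∀ c : ℂ, x ≠ algebraMap ℂ F c)
    (h' : v ^ 2 = u ^ 3 + algebraMap ℂ F A * u + algebraMap ℂ F B)
    (hu : ∀ c : ℂ, u ≠ algebraMap ℂ F c) :
    ∃ τ : F →ₐ[ℂ] F, τ x = u ∧ τ y = v := by
  obtain ⟨φ, hφ, hφx, hφy⟩ := ELLT_hom A B x y h hx
  obtain ⟨ψ, hψ, hψx, hψy⟩ := ELLT_hom A B u v h' hu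
  let _ : Algebra (WC A B).CoordinateRing F := (φ : (WC A B).CoordinateRing →+* F).toAlgebra
  have halg : ∀ r, algebraMap (WC A B).CoordinateRing F r = φ r := fun r => rfl
  have : FaithfulSMul (WC A B).CoordinateRing F :=
    (faithfulSMul_iff_algebraMap_injective _ _).2 hφ
  have hfr : IsFractionRing (WC A B).CoordinateRing F := by
    apply IsFractionRing.of_field
    intro z
    have hz : z ∈ IntermediateField.adjoin ℂ ({x, y} : Set F) := by
      rw [hg]
      exact IntermediateField.mem_top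
    obtain ⟨p, hp, q, hq, rfl⟩ := IntermediateField.mem_adjoin_iff_div.1 hz
    have hle : Algebra.adjoin ℂ ({x, y} : Set F) ≤ φ.range := by
      apply Algebra.adjoin_le
      rintro w (rfl | rfl)
      · exact ⟨_, hφx⟩
      · exact ⟨_, hφy⟩
    obtain ⟨p', rfl⟩ := hle hp
    obtain ⟨q', rfl⟩ := hle hq
    exact ⟨p', q', rfl⟩
  have hψ' : Function.Injective (ψ : (WC A B).CoordinateRing →+* F) := hψ
  obtain ⟨L, hL⟩ : ∃ L : F →+* F, ∀ r : (WC A B).CoordinateRing, L (φ r) = ψ r :=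
    ⟨IsFractionRing.lift (K := F) (g := (ψ : (WC A B).CoordinateRing →+* F)) hψ', fun r => by
      rw [← halg]
      exact IsFractionRing.lift_algebraMap hψ' r⟩
  have hc : ∀ c : ℂ, L (algebraMap ℂ F c) = algebraMap ℂ F c := by
    intro c
    rw [← φ.commutes c, hL, ψ.commutes, φ.commutes]
  refine ⟨{ toRingHom := L, commutes' := hc }, ?_, ?_⟩
  · change L x = u
    rw [← hφx, hL, hψx]
  · change L y = v
    rw [← hφy, hL, hψy]

theorem ELLT_uniq (x y : F) (hg : FGen ({x, y} : Set F)) (σ τ : F →ₐ[ℂ] F) (h1 : σ x = τ x)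
    (h2 : σ y = τ y) : σ = τ := by
  apply AlgHom.ext
  intro z
  have hz : z ∈ IntermediateField.adjoin ℂ ({x, y} : Set F) := by
    rw [hg]
    exact IntermediateField.mem_top
  obtain ⟨p, hp, q, hq, rfl⟩ := IntermediateField.mem_adjoin_iff_div.1 hz
  have hle : Algebra.adjoin ℂ ({x, y} : Set F) ≤ AlgHom.equalizer σ τ := by
    apply Algebra.adjoin_le
    rintro w (rfl | rfl)
    · exact h1
    · exact h2
  have hp' : σ p = τ p := hle hp
  have hq' : σ q = τ q := hle hq
  rw [map_div₀, map_div₀, hp', hq']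
/-- the curve over `F` -/
noncomputable abbrev ELLT_E (F : Type) [Field F] [Algebra ℂ F] (A B : ℂ) :
    WeierstrassCurve.Affine F := WeierstrassCurve.baseChange (WC A B) F

theorem ELLT_disc (A B : ℂ) (h : 4 * A ^ 3 + 27 * B ^ 2 ≠ 0) : (ELLT_E F A B).Δ ≠ 0 := by
  have h1 : (ELLT_E F A B).Δ = algebraMap ℂ F (WC A B).Δ :=
    WeierstrassCurve.map_Δ (WC A B) (algebraMap ℂ F)
  have h2 : (WC A B).Δ = -16 * (4 * A ^ 3 + 27 * B ^ 2) := by
    simp [WC, WeierstrassCurve.Δ, WeierstrassCurve.b₂, WeierstrassCurve.b₄,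
      WeierstrassCurve.b₆, WeierstrassCurve.b₈]
    ring
  rw [h1, h2]
  intro h3
  rw [map_eq_zero] at h3
  exact mul_ne_zero (by norm_num) h h3

theorem ELLT_eqn (A B : ℂ) (u v : F) : (ELLT_E F A B).Equation u v ↔
    v ^ 2 = u ^ 3 + algebraMap ℂ F A * u + algebraMap ℂ F B := by
  rw [WeierstrassCurve.Affine.equation_iff]
  simp [WC, WeierstrassCurve.baseChange, WeierstrassCurve.map]

theorem ELLT_ns (A B : ℂ) (h : 4 * A ^ 3 + 27 * B ^ 2 ≠ 0) (u v : F) :
    (ELLT_E F A B).Nonsingular u v ↔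
    v ^ 2 = u ^ 3 + algebraMap ℂ F A * u + algebraMap ℂ F B := by
  rw [← WeierstrassCurve.Affine.equation_iff_nonsingular_of_Δ_ne_zero (ELLT_disc A B h),
    ELLT_eqn]

theorem ELLT_nsC (A B : ℂ) (h : 4 * A ^ 3 + 27 * B ^ 2 ≠ 0) (u v : ℂ) :
    (WC A B).Nonsingular u v ↔ v ^ 2 = u ^ 3 + A * u + B :=
  ELLT_ns (F := ℂ) A B h u v

section group

variable [DecidableEq F]

/-- the map on points -/
noncomputable def ELLT_io (F : Type) [Field F] [Algebra ℂ F] [DecidableEq F] (A B : ℂ) :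
    (WC A B).Point →+ (ELLT_E F A B).Point :=
  WeierstrassCurve.Affine.Point.map (W' := WC A B) (S := ℂ) (Algebra.ofId ℂ F)

theorem ELLT_io_some {A B a b : ℂ} (h : (WC A B).Nonsingular a b) :
    ∃ h', ELLT_io F A B (.some a b h) =
      .some (algebraMap ℂ F a) (algebraMap ℂ F b) h' := by
  exact ⟨_, rfl⟩

theorem ELLT_io_inj (A B : ℂ) : Function.Injective (ELLT_io F A B) :=
  WeierstrassCurve.Affine.Point.map_injective (W' := WC A B) (Algebra.ofId ℂ F)

/-- the action on points -/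
noncomputable def ELLT_mp (A B : ℂ) (τ : F →ₐ[ℂ] F) :
    (ELLT_E F A B).Point →+ (ELLT_E F A B).Point :=
  WeierstrassCurve.Affine.Point.map (W' := WC A B) (S := ℂ) τ

theorem ELLT_mp_some (A B : ℂ) (τ : F →ₐ[ℂ] F) {u v : F} (h : (ELLT_E F A B).Nonsingular u v) :
    ∃ h', ELLT_mp A B τ (.some u v h) = .some (τ u) (τ v) h' := ⟨_, rfl⟩

theorem ELLT_mp_io (A B : ℂ) (τ : F →ₐ[ℂ] F) (q : (WC A B).Point) :
    ELLT_mp A B τ (ELLT_io F A B q) = ELLT_io F A B q := by
  have h := WeierstrassCurve.Affine.Point.map_map (W' := WC A B) (S := ℂ)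
    (Algebra.ofId ℂ F) τ q
  have h2 : τ.comp (Algebra.ofId ℂ F) = Algebra.ofId ℂ F := Subsingleton.elim _ _
  rw [h2] at h
  exact h

theorem ELLT_mp_comp (A B : ℂ) (σ τ : F →ₐ[ℂ] F) (P : (ELLT_E F A B).Point) :
    ELLT_mp A B σ (ELLT_mp A B τ P) = ELLT_mp A B (σ.comp τ) P :=
  WeierstrassCurve.Affine.Point.map_map (W' := WC A B) (S := ℂ) τ σ P

end group

open Classical in
theorem st_ELLT : ST_ELLT := by
  intro F _ _ o A B x y hF W
  have hx : ∀ c : ℂ, x ≠ algebraMap ℂ F c := by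
    intro c hc
    have h1 := W.ox
    rw [hc, o.2.const] at h1
    norm_num at h1
  set P : (ELLT_E F A B).Point := .some x y ((ELLT_ns A B W.disc x y).2 W.eqn) with hP
  set ι := ELLT_io F A B with hι
  -- the generic point is not constant
  have hPι : ∀ q, P ≠ ι q := by
    intro q h
    match q, h with
    | .zero, h =>
      have h1 : ι .zero = 0 := map_zero ι
      rw [h1] at h
      exact WeierstrassCurve.Affine.Point.some_ne_zero _ h
    | .some a b h0, h =>
      obtain ⟨h', h1⟩ := ELLT_io_some (F := F) h0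
      rw [hι, h1, hP, WeierstrassCurve.Affine.Point.some.injEq] at h
      exact hx a h.1
  have hadd : ∀ q, ∃ u v h, P + ι q = .some u v h ∧ ∀ c : ℂ, u ≠ algebraMap ℂ F c := by
    intro q
    match hq : P + ι q with
    | .zero =>
      exfalso
      have h1 : P = ι (-q) := by
        rw [map_neg]
        exact eq_neg_of_add_eq_zero_left hq
      exact hPι _ h1
    | .some u v h =>
      refine ⟨u, v, h, rfl, ?_⟩
      rintro c rfl
      have hv := (ELLT_ns A B W.disc _ _).1 h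
      obtain ⟨d, hd⟩ := IsAlgClosed.exists_pow_nat_eq (c ^ 3 + A * c + B) (n := 2) (by norm_num)
      have hv2 : v ^ 2 = (algebraMap ℂ F d) ^ 2 := by
        have h5 : algebraMap ℂ F d ^ 2 = algebraMap ℂ F (d ^ 2) := (map_pow _ _ _).symm
        rw [hv, h5, hd]
        simp
      have : ∃ e : ℂ, e ^ 2 = c ^ 3 + A * c + B ∧ v = algebraMap ℂ F e := by
        rcases sq_eq_sq_iff_eq_or_eq_neg.1 hv2 with h2 | h2
        · exact ⟨d, hd, h2⟩
        · exact ⟨-d, by rw [← hd]; ring, by rw [h2, map_neg]⟩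
      obtain ⟨e, he, rfl⟩ := this
      obtain ⟨h', h1⟩ := ELLT_io_some (F := F) ((ELLT_nsC A B W.disc c e).2 he)
      have h3 : P + ι q = ι (.some c e ((ELLT_nsC A B W.disc c e).2 he)) := by
        rw [hq, hι, h1]
      apply hPι (.some c e ((ELLT_nsC A B W.disc c e).2 he) - q)
      rw [map_sub, ← h3, add_sub_cancel_right]
  have hex : ∀ q, ∃ τ : F →ₐ[ℂ] F, ELLT_mp A B τ P = P + ι q := by
    intro q
    obtain ⟨u, v, h, h1, h2⟩ := hadd q
    obtain ⟨τ, h3, h4⟩ := ELLT_ext A B x y u v W.gen W.eqn hx ((ELLT_ns A B W.disc _ _).1 h) h2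
    refine ⟨τ, ?_⟩
    obtain ⟨h', h5⟩ := ELLT_mp_some A B τ ((ELLT_ns A B W.disc x y).2 W.eqn)
    rw [h1, hP, h5, WeierstrassCurve.Affine.Point.some.injEq]
    exact ⟨h3, h4⟩
  have huniq : ∀ σ τ : F →ₐ[ℂ] F, ELLT_mp A B σ P = ELLT_mp A B τ P → σ = τ := by
    intro σ τ h
    obtain ⟨h', h5⟩ := ELLT_mp_some A B σ ((ELLT_ns A B W.disc x y).2 W.eqn)
    obtain ⟨h'', h6⟩ := ELLT_mp_some A B τ ((ELLT_ns A B W.disc x y).2 W.eqn)
    rw [hP, h5, h6, WeierstrassCurve.Affine.Point.some.injEq] at h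
    exact ELLT_uniq x y W.gen σ τ h.1 h.2
  choose τ hτ using hex
  have hmul : ∀ q q', τ (q + q') = (τ q).comp (τ q') := by
    intro q q'
    apply huniq
    rw [← ELLT_mp_comp, hτ, hτ, map_add, map_add, hτ, ELLT_mp_io]
    abel
  have hone : τ 0 = AlgHom.id ℂ F := by
    apply huniq
    rw [hτ, map_zero, add_zero]
    obtain ⟨h', h5⟩ := ELLT_mp_some A B (AlgHom.id ℂ F) ((ELLT_ns A B W.disc x y).2 W.eqn)
    rw [hP, h5]
    rfl
  let T : Multiplicative (WC A B).Point →* (F ≃ₐ[ℂ] F) :=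
    { toFun := fun q => AlgEquiv.ofAlgHom (τ q.toAdd) (τ (-q.toAdd))
        (by rw [← hmul, add_neg_cancel, hone]) (by rw [← hmul, neg_add_cancel, hone])
      map_one' := by
        ext z
        change τ 0 z = z
        rw [hone]
        rfl
      map_mul' := by
        intro p q
        ext z
        change τ (p.toAdd + q.toAdd) z = τ p.toAdd (τ q.toAdd z)
        rw [hmul]
        rfl }
  have hT : ∀ q z, T (Multiplicative.ofAdd q) z = τ q z := fun q z => rfl
  refine ⟨T, ?_, ?_⟩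
  · intro p q hpq
    have h1 : τ p.toAdd = τ q.toAdd := by
      ext z
      have := congrArg (fun e : F ≃ₐ[ℂ] F => e z) hpq
      exact this
    have h2 := hτ p.toAdd
    rw [h1, hτ] at h2
    have h3 := ELLT_io_inj (F := F) A B (add_left_cancel h2)
    exact (Multiplicative.toAdd.injective h3).symm
  · intro a b h
    rw [hT, hT]
    obtain ⟨h1, h2⟩ := ELLT_io_some (F := F) h
    have h3 := hτ (.some a b h)
    obtain ⟨h4, h5⟩ := ELLT_mp_some A B (τ (.some a b h)) ((ELLT_ns A B W.disc x y).2 W.eqn)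
    rw [hι, h2, hP, h5, WeierstrassCurve.Affine.Point.add_of_X_ne (hx a),
      WeierstrassCurve.Affine.Point.some.injEq,
      WeierstrassCurve.Affine.slope_of_X_ne (hx a)] at h3
    obtain ⟨h6, h7⟩ := h3
    have hne : x - algebraMap ℂ F a ≠ 0 := sub_ne_zero.2 (hx a)
    rw [h7, h6]
    simp only [WeierstrassCurve.Affine.addX, WeierstrassCurve.Affine.addY,
      WeierstrassCurve.Affine.negAddY, WeierstrassCurve.Affine.negY, ELLT_E,
      WeierstrassCurve.baseChange, WeierstrassCurve.map, WC, map_zero]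
    constructor
    · field_simp
      ring
    · field_simp
      ring

end Pool.Agent.Helper43.FV
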